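import Mathlib
import Pool.Agent.H70.SHT.Defs
import Pool.Agent.H70.SHT.Main

/-!
# MP_d68eb8_pr: sparse random graphs are reconstructable from their 2-neighborhoods
-/

set_option autoImplicit false

open Filter Topology

namespace Pool.Agent.Results.MP_d68eb8_pr.TwoNeighborhoods

open Pool.Agent.H70.SHT

/-- If `n ^ (-3/4 + ε) ≤ p n ≤ 1` for all large `n`, then the random graph `G(n, p n)` (Mathlib's
`SimpleGraph.binomialRandom`) is a.a.s. reconstructable from its 2-neighborhoods. -/
theorem result (ε : ℝ) (hε : 0 < ε) (p : ℕ → unitInterval)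
    (hp : ∀ᶠ n : ℕ in atTop, (n : ℝ) ^ (-(3 / 4 : ℝ) + ε) ≤ p n) :
    Tendsto (fun n : ℕ => SimpleGraph.binomialRandom (Fin n) (p n) {G | Reconstructable G})
      atTop (𝓝 1) :=
  main ε hε p hp

end Pool.Agent.Results.MP_d68eb8_pr.TwoNeighborhoods
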